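import Pool.Agent.H48.RN.Stmts1

/-!
Newton's identities.
-/

set_option autoImplicit false

open Polynomial

namespace Pool.RN

theorem NWT_exists (b : ℕ → ℂ) (N : ℕ) (hb0 : b 0 = 1) (hb : ∀ n, N + 1 ≤ n → b n = 0) :
    ∃ α : Fin N → ℂ, ∀ n, b n = (-1) ^ n * (Finset.univ.val.map α).esymm n := by
  set Q : ℂ[X] := ∑ n ∈ Finset.range (N + 1), C (b n) * X ^ (N - n) with hQ
  have hcoeff : ∀ k, Q.coeff k = if k ≤ N then b (N - k) else 0 := by
    intro k
    rw [hQ, finsetSum_coeff]
    simp only [coeff_C_mul, coeff_X_pow, mul_ite, mul_one, mul_zero]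
    by_cases hk : k ≤ N
    · rw [if_pos hk, Finset.sum_eq_single (N - k)]
      · rw [if_pos (by omega)]
      · intro n hn hne
        rw [Finset.mem_range] at hn
        rw [if_neg (by omega)]
      · intro h
        exact absurd (Finset.mem_range.2 (by omega)) h
    · rw [if_neg hk]
      apply Finset.sum_eq_zero
      intro n _
      rw [if_neg (by omega)]
  have hdeg : Q.natDegree = N := by
    apply natDegree_eq_of_le_of_coeff_ne_zero
    · rw [natDegree_le_iff_coeff_eq_zero]
      intro k hk
      rw [hcoeff, if_neg (by omega)]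
    · rw [hcoeff, if_pos le_rfl, Nat.sub_self, hb0]
      exact one_ne_zero
  have hlead : Q.leadingCoeff = 1 := by
    rw [leadingCoeff, hdeg, hcoeff, if_pos le_rfl, Nat.sub_self, hb0]
  have hcard : Multiset.card Q.roots = Q.natDegree :=
    splits_iff_card_roots.1 (IsAlgClosed.splits Q)
  obtain ⟨α, hα⟩ : ∃ α : Fin N → ℂ, Finset.univ.val.map α = Q.roots := by
    have hl : Q.roots.toList.length = N := by rw [Multiset.length_toList, hcard, hdeg]
    refine ⟨fun i => Q.roots.toList.get (i.cast hl.symm), ?_⟩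
    rw [Fin.univ_val_map]
    conv_rhs => rw [← Multiset.coe_toList Q.roots]
    congr 1
    apply List.ext_get
    · rw [List.length_ofFn, hl]
    · intro n h1 h2
      simp
  refine ⟨α, ?_⟩
  intro n
  rw [hα]
  by_cases hn : n ≤ N
  · have h1 := coeff_eq_esymm_roots_of_card hcard (k := N - n) (by omega)
    rw [hlead, hdeg, hcoeff, if_pos (Nat.sub_le _ _), Nat.sub_sub_self hn, one_mul] at h1
    exact h1
  · rw [hb n (by omega)]
    have : Q.roots.esymm n = 0 := by
      rw [Multiset.esymm, Multiset.powersetCard_eq_empty n (by rw [hcard, hdeg]; omega)]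
      simp
    rw [this, mul_zero]

theorem NWT_newton (N : ℕ) (α : Fin N → ℂ) (b : ℕ → ℂ)
    (hb : ∀ n, b n = (-1) ^ n * (Finset.univ.val.map α).esymm n) (n : ℕ) :
    (n : ℂ) * b n = ∑ j ∈ Finset.Icc 1 n, (-∑ i, α i ^ j) * b (n - j) := by
  have h1 := congrArg (MvPolynomial.aeval α) (MvPolynomial.mul_esymm_eq_sum (Fin N) ℂ n)
  simp only [map_mul, map_natCast, map_pow, map_neg, map_one, map_sum,
    MvPolynomial.aeval_esymm_eq_multiset_esymm, MvPolynomial.psum, MvPolynomial.aeval_X] at h1
  have h2 : (n : ℂ) * b n = -∑ a ∈ Finset.HasAntidiagonal.antidiagonal n with a.1 < n, b a.1 * ∑ i, α i ^ a.2 := by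
    rw [hb n]
    calc (n : ℂ) * ((-1) ^ n * (Finset.univ.val.map α).esymm n)
        = (-1) ^ n * (n * (Finset.univ.val.map α).esymm n) := by ring
      _ = _ := by
        rw [h1, ← mul_assoc, ← pow_add, show n + (n + 1) = 2 * n + 1 by ring, pow_succ,
          pow_mul, neg_one_sq, one_pow, one_mul, neg_one_mul]
        congr 1
        apply Finset.sum_congr rfl
        intro a _
        rw [hb a.1]
  rw [h2, ← Finset.sum_neg_distrib]
  symm
  apply Finset.sum_bij' (fun j _ => (n - j, j)) (fun a _ => a.2)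
  · intro j hj
    rw [Finset.mem_Icc] at hj
    rw [Finset.mem_filter, Finset.HasAntidiagonal.mem_antidiagonal]
    constructor
    · show n - j + j = n
      omega
    · show n - j < n
      omega
  · intro a ha
    rw [Finset.mem_filter, Finset.HasAntidiagonal.mem_antidiagonal] at ha
    rw [Finset.mem_Icc]
    omega
  · intro j _
    rfl
  · intro a ha
    rw [Finset.mem_filter, Finset.HasAntidiagonal.mem_antidiagonal] at ha
    apply Prod.ext
    · show n - a.2 = a.1
      omega
    · rfl
  · intro j _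
    ring

theorem s_NWT : S_NWT := by
  intro b a m hm hb0 hbm hrec
  obtain ⟨N, rfl⟩ : ∃ N, m = N + 1 := ⟨m - 1, by omega⟩
  obtain ⟨α, hα⟩ := NWT_exists b N hb0 hbm
  show ∃ α : Fin N → ℂ, ∀ j, 1 ≤ j → a j = - ∑ i, α i ^ j
  refine ⟨α, ?_⟩
  have hn := NWT_newton N α b hα
  intro j
  induction j using Nat.strong_induction_on with
  | _ j ih =>
    intro hj
    have h1 := (hrec j).symm.trans (hn j)
    have h2 : Finset.Icc 1 j = insert j (Finset.Icc 1 (j - 1)) := by
      ext i
      simp only [Finset.mem_insert, Finset.mem_Icc]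
      omega
    have h3 : j ∉ Finset.Icc 1 (j - 1) := by
      rw [Finset.mem_Icc]
      omega
    rw [h2, Finset.sum_insert h3, Finset.sum_insert h3, Nat.sub_self, hb0, mul_one, mul_one] at h1
    have h4 : ∑ i ∈ Finset.Icc 1 (j - 1), a i * b (j - i)
        = ∑ i ∈ Finset.Icc 1 (j - 1), (-∑ k, α k ^ i) * b (j - i) := by
      apply Finset.sum_congr rfl
      intro i hi
      rw [Finset.mem_Icc] at hi
      rw [ih i (by omega) hi.1]
    rw [h4] at h1
    exact add_right_cancel h1

end Pool.RN
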