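import Pool.Agent.H48.RN.Stmts1

/-!
The power sum lemma.
-/

set_option autoImplicit false

open Filter Topology

namespace Pool.RN

theorem PWS_geom (w : ℂ) (hw : ‖w‖ ≤ 1) (hw1 : w ≠ 1) :
    Tendsto (fun N : ℕ => (∑ j ∈ Finset.Icc 1 N, w ^ j) / (N : ℂ)) atTop (𝓝 0) := by
  have h1 : ∀ N : ℕ, ‖(∑ j ∈ Finset.Icc 1 N, w ^ j)‖ ≤ 2 / ‖1 - w‖ := by
    intro N
    have hne : (1 - w) ≠ 0 := sub_ne_zero.2 (Ne.symm hw1)
    have hpos : 0 < ‖1 - w‖ := norm_pos_iff.2 hne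
    have h2 : (∑ j ∈ Finset.Icc 1 N, w ^ j) * (1 - w) = w - w ^ (N + 1) := by
      induction N with
      | zero => simp
      | succ N ih =>
        rw [Finset.sum_Icc_succ_top (by omega), add_mul, ih]
        ring
    rw [le_div_iff₀ hpos, ← norm_mul, h2]
    refine le_trans (norm_sub_le _ _) ?_
    rw [norm_pow]
    have h3 : ‖w‖ ^ (N + 1) ≤ 1 := pow_le_one₀ (norm_nonneg _) hw
    linarith
  rw [tendsto_zero_iff_norm_tendsto_zero]
  have h4 : Tendsto (fun N : ℕ => (2 / ‖1 - w‖) / (N : ℝ)) atTop (𝓝 0) :=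
    tendsto_const_div_atTop_nhds_zero_nat _
  refine squeeze_zero (fun N => norm_nonneg _) (fun N => ?_) h4
  rw [norm_div, Complex.norm_natCast]
  exact div_le_div_of_nonneg_right (h1 N) (Nat.cast_nonneg N)

theorem PWS_one : Tendsto (fun N : ℕ => (∑ j ∈ Finset.Icc 1 N, (1 : ℂ) ^ j) / (N : ℂ)) atTop
    (𝓝 1) := by
  have h : ∀ᶠ N : ℕ in atTop, (1 : ℂ) = (∑ j ∈ Finset.Icc 1 N, (1 : ℂ) ^ j) / (N : ℂ) := by
    filter_upwards [eventually_ge_atTop 1] with N hN
    have hN0 : (N : ℂ) ≠ 0 := by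
      have : N ≠ 0 := by omega
      exact_mod_cast this
    simp only [one_pow, Finset.sum_const, Nat.card_Icc, Nat.add_sub_cancel, nsmul_eq_mul, mul_one]
    rw [div_self hN0]
  exact tendsto_const_nhds.congr' h

/-- The mean square of a power sum. -/
theorem PWS_mean {ι : Type} [Fintype ι] (β : ι → ℂ) (hβ : ∀ i, ‖β i‖ ≤ 1) :
    Tendsto (fun N : ℕ => (∑ j ∈ Finset.Icc 1 N, (∑ i, β i ^ j) * (starRingEnd ℂ) (∑ i, β i ^ j))
      / (N : ℂ)) atTop (𝓝 (open Classical in ∑ i, ∑ k, if β i * (starRingEnd ℂ) (β k) = 1 then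
        (1:ℂ) else 0)) := by
  classical
  have h1 : ∀ N : ℕ, (∑ j ∈ Finset.Icc 1 N, (∑ i, β i ^ j) * (starRingEnd ℂ) (∑ i, β i ^ j))
      / (N : ℂ) = ∑ i, ∑ k, (∑ j ∈ Finset.Icc 1 N, (β i * (starRingEnd ℂ) (β k)) ^ j) / (N : ℂ) := by
    intro N
    have h2 : ∀ j, (∑ i, β i ^ j) * (starRingEnd ℂ) (∑ i, β i ^ j)
        = ∑ i, ∑ k, (β i * (starRingEnd ℂ) (β k)) ^ j := by
      intro j
      rw [map_sum, Finset.sum_mul_sum]
      apply Finset.sum_congr rfl
      intro i _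
      apply Finset.sum_congr rfl
      intro k _
      rw [map_pow, mul_pow]
    simp only [h2]
    rw [Finset.sum_comm, Finset.sum_div]
    apply Finset.sum_congr rfl
    intro i _
    rw [Finset.sum_comm, Finset.sum_div]
  simp only [h1]
  apply tendsto_finsetSum
  intro i _
  apply tendsto_finsetSum
  intro k _
  by_cases h : β i * (starRingEnd ℂ) (β k) = 1
  · rw [if_pos h, h]
    exact PWS_one
  · rw [if_neg h]
    apply PWS_geom _ _ h
    rw [norm_mul, Complex.norm_conj]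
    exact mul_le_one₀ (hβ i) (norm_nonneg _) (hβ k)

theorem s_PWS : S_PWS := by
  classical
  intro ι _ α θ C hθ h i₀
  by_contra hcon
  rw [not_le] at hcon
  have : Nonempty ι := ⟨i₀⟩
  obtain ⟨m, hm⟩ := Finite.exists_max (fun i => ‖α i‖)
  set R : ℝ := ‖α m‖ with hR
  have hRθ : θ < R := lt_of_lt_of_le hcon (hm i₀)
  have hR0 : 0 < R := lt_trans hθ hRθ
  set β : ι → ℂ := fun i => α i / (R : ℂ) with hβ
  have hRne : (R : ℂ) ≠ 0 := by exact_mod_cast hR0.ne'
  have hβ1 : ∀ i, ‖β i‖ ≤ 1 := by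
    intro i
    rw [hβ]
    show ‖α i / (R : ℂ)‖ ≤ 1
    rw [norm_div, Complex.norm_real, Real.norm_of_nonneg hR0.le, div_le_one hR0]
    exact hm i
  have hmean := PWS_mean β hβ1
  -- the power sums tend to zero
  have hsum : ∀ j, (∑ i, β i ^ j) = (∑ i, α i ^ j) / (R : ℂ) ^ j := by
    intro j
    rw [Finset.sum_div]
    apply Finset.sum_congr rfl
    intro i _
    rw [hβ]
    show (α i / (R : ℂ)) ^ j = _
    rw [div_pow]
  have hratio : θ / R < 1 := (div_lt_one hR0).2 hRθ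
  have hratio0 : 0 ≤ θ / R := (div_pos hθ hR0).le
  have hbound : ∀ j, 1 ≤ j → ‖(∑ i, β i ^ j) * (starRingEnd ℂ) (∑ i, β i ^ j)‖
      ≤ C ^ 2 * ((θ / R) ^ 2) ^ j := by
    intro j hj
    rw [norm_mul, Complex.norm_conj, hsum, norm_div, norm_pow, Complex.norm_real,
      Real.norm_of_nonneg hR0.le]
    have h1 := h j hj
    have h2 : ‖∑ i, α i ^ j‖ / R ^ j ≤ C * (θ / R) ^ j := by
      rw [div_pow, mul_div_assoc']
      exact div_le_div_of_nonneg_right h1 (pow_pos hR0 _).le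
    have h3 : 0 ≤ ‖∑ i, α i ^ j‖ / R ^ j := by positivity
    calc ‖∑ i, α i ^ j‖ / R ^ j * (‖∑ i, α i ^ j‖ / R ^ j)
        ≤ (C * (θ / R) ^ j) * (C * (θ / R) ^ j) :=
          mul_le_mul h2 h2 h3 (le_trans h3 h2)
      _ = C ^ 2 * ((θ / R) ^ 2) ^ j := by
        rw [← pow_mul, mul_comm 2 j, pow_mul]
        ring
  have hzero : Tendsto (fun N : ℕ => (∑ j ∈ Finset.Icc 1 N,
      (∑ i, β i ^ j) * (starRingEnd ℂ) (∑ i, β i ^ j)) / (N : ℂ)) atTop (𝓝 0) := by
    rw [tendsto_zero_iff_norm_tendsto_zero]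
    set r : ℝ := (θ / R) ^ 2 with hr
    have hr0 : 0 ≤ r := sq_nonneg _
    have hr1 : r < 1 := by
      rw [hr]
      exact pow_lt_one₀ hratio0 hratio (by norm_num)
    have h4 : Tendsto (fun N : ℕ => (C ^ 2 * (1 - r)⁻¹) / (N : ℝ)) atTop (𝓝 0) :=
      tendsto_const_div_atTop_nhds_zero_nat _
    refine squeeze_zero (fun N => norm_nonneg _) (fun N => ?_) h4
    rw [norm_div, Complex.norm_natCast]
    apply div_le_div_of_nonneg_right _ (Nat.cast_nonneg N)
    refine le_trans (norm_sum_le _ _) ?_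
    refine le_trans (Finset.sum_le_sum fun j hj => hbound j (Finset.mem_Icc.1 hj).1) ?_
    rw [← Finset.mul_sum]
    apply mul_le_mul_of_nonneg_left _ (sq_nonneg C)
    have h5 : Summable fun j : ℕ => r ^ j := summable_geometric_of_lt_one hr0 hr1
    rw [← tsum_geometric_of_lt_one hr0 hr1]
    exact h5.sum_le_tsum _ (fun j _ => pow_nonneg hr0 j)
  have heq := tendsto_nhds_unique hmean hzero
  have hpos : (1 : ℝ) ≤ ∑ i, ∑ k, if β i * (starRingEnd ℂ) (β k) = 1 then (1:ℝ) else 0 := by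
    have h6 : (if β m * (starRingEnd ℂ) (β m) = 1 then (1:ℝ) else 0) = 1 := by
      rw [if_pos]
      rw [Complex.mul_conj, Complex.normSq_eq_norm_sq]
      have : ‖β m‖ = 1 := by
        rw [hβ]
        show ‖α m / (R : ℂ)‖ = 1
        rw [norm_div, Complex.norm_real, Real.norm_of_nonneg hR0.le, ← hR, div_self hR0.ne']
      rw [this]
      norm_num
    calc (1:ℝ) = if β m * (starRingEnd ℂ) (β m) = 1 then (1:ℝ) else 0 := h6.symm
      _ ≤ ∑ k, if β m * (starRingEnd ℂ) (β k) = 1 then (1:ℝ) else 0 :=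
        Finset.single_le_sum (f := fun k => if β m * (starRingEnd ℂ) (β k) = 1 then (1:ℝ) else 0)
          (fun k _ => by split_ifs <;> norm_num) (Finset.mem_univ m)
      _ ≤ _ := Finset.single_le_sum
          (f := fun i => ∑ k, if β i * (starRingEnd ℂ) (β k) = 1 then (1:ℝ) else 0)
          (fun i _ => Finset.sum_nonneg fun k _ => by split_ifs <;> norm_num) (Finset.mem_univ m)
  have heq2 : (∑ i, ∑ k, if β i * (starRingEnd ℂ) (β k) = 1 then (1:ℝ) else 0) = 0 := by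
    have h7 : (((∑ i, ∑ k, if β i * (starRingEnd ℂ) (β k) = 1 then (1:ℝ) else 0) : ℝ) : ℂ) = 0 := by
      simp only [Complex.ofReal_sum, apply_ite Complex.ofReal, Complex.ofReal_one,
        Complex.ofReal_zero]
      exact heq
    exact_mod_cast h7
  linarith

end Pool.RN
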